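import Mathlib
import Pool.Agent.R488.TM

/-!
# The growth rate of the Fibonacci sequence twisted by the Thue-Morse sequence

The numbers `|h n|` are the entries of products of two nonnegative matrices of size `2`, ordered
by the sequence `t (n + 1) * t n`.  By the self-similarity of the Thue-Morse sequence the products
over dyadic blocks are almost multiplicative, with a bounded factor, and this gives
`|h n| = g ^ n n ^ O(1)`.
-/

set_option autoImplicit false

namespace Pool.Agent.Results.MP_7d59ed_nt.GrowthRate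

open Pool.Agent.R488.TM Filter Topology

/-- The logarithm of `Y n`. -/
noncomputable def l (n : ℕ) : ℝ := Real.log (Y n : ℝ)

lemma Y_one_le (n : ℕ) : (1 : ℝ) ≤ (Y n : ℝ) := by exact_mod_cast (XY_pos n).2.1

lemma l_nonneg (n : ℕ) : 0 ≤ l n := Real.log_nonneg (Y_one_le n)

lemma l_add {k m : ℕ} (hm : 2 ^ k ∣ m) (j : ℕ) (hj : j < 2 ^ k) :
    l m + l j ≤ l (m + j) ∧ l (m + j) ≤ l m + l j + Real.log 3 := by
  obtain ⟨h1, h2⟩ := Y_mul hm j hj
  have h1' : (Y m : ℝ) * Y j ≤ Y (m + j) := by exact_mod_cast h1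
  have h2' : (Y (m + j) : ℝ) ≤ (Y m : ℝ) * Y j * 3 := by
    have : (Y (m + j) : ℝ) ≤ 3 * ((Y m : ℝ) * Y j) := by exact_mod_cast h2
    linarith
  have hm1 := Y_one_le m
  have hj1 := Y_one_le j
  have hmj := Y_one_le (m + j)
  unfold l
  constructor
  · rw [← Real.log_mul (by linarith) (by linarith)]
    exact Real.log_le_log (by positivity) h1'
  · rw [← Real.log_mul (by linarith) (by linarith), ← Real.log_mul (by positivity) (by norm_num)]
    exact Real.log_le_log (by linarith) h2'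

lemma l_succ (n : ℕ) : l n ≤ l (n + 1) ∧ l (n + 1) ≤ l n + Real.log 3 := by
  obtain ⟨h1, h2, h3, -⟩ := XY_pos n
  have h4 : Y n ≤ Y (n + 1) := by rw [Y_succ]; omega
  have h5 : Y (n + 1) ≤ Y n * 3 := by rw [Y_succ]; omega
  have h4' : (Y n : ℝ) ≤ Y (n + 1) := by exact_mod_cast h4
  have h5' : (Y (n + 1) : ℝ) ≤ Y n * 3 := by exact_mod_cast h5
  have hn := Y_one_le n
  have hn1 := Y_one_le (n + 1)
  unfold l
  constructor
  · exact Real.log_le_log (by linarith) h4'
  · rw [← Real.log_mul (by linarith) (by norm_num)]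
    exact Real.log_le_log (by linarith) h5'

lemma log3_pos : 0 < Real.log 3 := Real.log_pos (by norm_num)

lemma l_double (k : ℕ) : |l (2 ^ (k + 1)) - 2 * l (2 ^ k)| ≤ 2 * Real.log 3 := by
  have hp : 1 ≤ 2 ^ k := Nat.one_le_two_pow
  obtain ⟨h1, h2⟩ := l_add (dvd_refl (2 ^ k)) (2 ^ k - 1) (by omega)
  obtain ⟨h3, h4⟩ := l_succ (2 ^ k - 1)
  rw [Nat.sub_add_cancel hp] at h3 h4
  obtain ⟨h5, h6⟩ := l_succ (2 ^ k + (2 ^ k - 1))
  have e : 2 ^ k + (2 ^ k - 1) + 1 = 2 ^ (k + 1) := by rw [pow_succ]; omega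
  rw [e] at h5 h6
  have := log3_pos
  rw [abs_le]
  constructor <;> linarith

/-- The growth exponent of `Y`. -/
lemma exists_lam : ∃ lam : ℝ, 0 ≤ lam ∧ ∀ k : ℕ, |l (2 ^ k) - lam * 2 ^ k| ≤ 2 * Real.log 3 := by
  set f : ℕ → ℝ := fun k => l (2 ^ k) / 2 ^ k with hf
  have hd : ∀ k, dist (f k) (f (k + 1)) ≤ Real.log 3 * (1 / 2) ^ k := by
    intro k
    have h1 := l_double k
    have hp : (0 : ℝ) < 2 ^ k := by positivity
    have h2 : f k - f (k + 1) = -(l (2 ^ (k + 1)) - 2 * l (2 ^ k)) / (2 * 2 ^ k) := by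
      simp only [hf]
      rw [pow_succ (2 : ℝ) k]
      field_simp
      ring
    rw [Real.dist_eq, h2, abs_div, abs_neg, abs_of_pos (by positivity : (0 : ℝ) < 2 * 2 ^ k),
      div_le_iff₀ (by positivity)]
    calc |l (2 ^ (k + 1)) - 2 * l (2 ^ k)| ≤ 2 * Real.log 3 := h1
      _ = Real.log 3 * (1 / 2) ^ k * (2 * 2 ^ k) := by
        rw [one_div, inv_pow]
        field_simp
  have hc : CauchySeq f := cauchySeq_of_le_geometric _ _ (by norm_num) hd
  obtain ⟨lam, hlam⟩ := cauchySeq_tendsto_of_complete hc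
  refine ⟨lam, ?_, fun k => ?_⟩
  · exact ge_of_tendsto' hlam fun k => div_nonneg (l_nonneg _) (by positivity)
  · have h1 := dist_le_of_le_geometric_of_tendsto _ _ (by norm_num) hd hlam k
    have hp : (0 : ℝ) < 2 ^ k := by positivity
    rw [Real.dist_eq] at h1
    have h2 : l (2 ^ k) - lam * 2 ^ k = (f k - lam) * 2 ^ k := by
      simp only [hf]
      field_simp
    rw [h2, abs_mul, abs_of_pos hp]
    calc |f k - lam| * 2 ^ k ≤ Real.log 3 * (1 / 2) ^ k / (1 - 1 / 2) * 2 ^ k :=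
          mul_le_mul_of_nonneg_right h1 hp.le
      _ = 2 * Real.log 3 := by
        rw [one_div, inv_pow]
        field_simp
        ring

lemma l_lt {lam : ℝ} (hlam : ∀ k : ℕ, |l (2 ^ k) - lam * 2 ^ k| ≤ 2 * Real.log 3) (k : ℕ) :
    ∀ n : ℕ, n < 2 ^ k → |l n - lam * n| ≤ 3 * Real.log 3 * k := by
  have := log3_pos
  induction k with
  | zero =>
    intro n hn
    have : n = 0 := by simpa using hn
    subst this
    simp [l, Y_zero]
  | succ k ih =>
    intro n hn
    rcases lt_or_ge n (2 ^ k) with h | h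
    · refine (ih n h).trans ?_
      push_cast
      nlinarith
    · obtain ⟨j, rfl⟩ := Nat.exists_eq_add_of_le h
      have hj : j < 2 ^ k := by rw [pow_succ] at hn; omega
      obtain ⟨h1, h2⟩ := l_add (dvd_refl (2 ^ k)) j hj
      have h3 := hlam k
      have h4 := ih j hj
      rw [abs_le] at h3 h4 ⊢
      push_cast
      constructor <;> nlinarith

/-- the matrix of the products over the blocks of length `2 ^ k - 1` -/
def mat : ℕ → ℕ × ℕ × ℕ × ℕ
  | 0 => (1, 0, 0, 1)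
  | k + 1 =>
    match mat k with
    | (a, b, c, d) =>
      let e := if k % 2 = 0 then 0 else 2
      (a * (e * a + c) + b * (a + c), a * (e * b + d) + b * (b + d),
        c * (e * a + c) + d * (a + c), c * (e * b + d) + d * (b + d))

lemma t_pred (k : ℕ) : t (2 ^ k - 1) = (-1) ^ k := by
  induction k with
  | zero => exact t_zero
  | succ k ih =>
    have hp : 1 ≤ 2 ^ k := Nat.one_le_two_pow
    have e : 2 ^ (k + 1) - 1 = 2 * (2 ^ k - 1) + 1 := by rw [pow_succ]; omega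
    rw [e, t_odd, ih, pow_succ]
    ring

lemma t_pow (k : ℕ) : t (2 ^ k) = -1 := by
  induction k with
  | zero =>
    rw [show 2 ^ 0 = 2 * 0 + 1 by norm_num, t_odd, t_zero]
  | succ k ih => rw [show 2 ^ (k + 1) = 2 * 2 ^ k by ring, t_even, ih]

lemma W_mat (k : ℕ) : ∀ x y : ℤ, W (x, y) (2 ^ k - 1) =
    (((mat k).1 : ℤ) * x + ((mat k).2.1 : ℤ) * y,
      ((mat k).2.2.1 : ℤ) * x + ((mat k).2.2.2 : ℤ) * y) := by
  induction k with
  | zero =>
    intro x y
    simp [W, mat]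
  | succ k ih =>
    intro x y
    have hp : 1 ≤ 2 ^ k := Nat.one_le_two_pow
    have e : 2 ^ (k + 1) - 1 = 2 ^ k + (2 ^ k - 1) := by rw [pow_succ]; omega
    rw [e, W_add (dvd_refl (2 ^ k)) _ _ (by omega)]
    have h1 : W (x, y) (2 ^ k) = W (x, y) (2 ^ k - 1 + 1) := by rw [Nat.sub_add_cancel hp]
    rw [h1, W, Nat.sub_add_cancel hp, t_pow, t_pred, ih x y, ih]
    rcases hm : mat k with ⟨a, b, c, d⟩
    simp only [mat, hm]
    rcases Nat.even_or_odd k with hk | hk
    · have h2 : k % 2 = 0 := Nat.even_iff.1 hk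
      rw [hk.neg_one_pow, if_pos h2]
      push_cast
      ext
      · dsimp only; ring
      · dsimp only; ring
    · have h2 : ¬ k % 2 = 0 := by have := Nat.odd_iff.1 hk; omega
      rw [hk.neg_one_pow, if_neg h2]
      push_cast
      ext
      · dsimp only; ring
      · dsimp only; ring

lemma Y_pow (k : ℕ) : Y (2 ^ k) = (((mat k).2.1 + (mat k).2.2.2 : ℕ) : ℤ) := by
  have hp : 1 ≤ 2 ^ k := Nat.one_le_two_pow
  have h1 : Y (2 ^ k) = X (2 ^ k - 1) + Y (2 ^ k - 1) := by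
    rw [← Y_succ, Nat.sub_add_cancel hp]
  rw [h1]
  unfold X Y
  rw [W_mat]
  push_cast
  ring

lemma num_low : 11521 ^ 16384 * 9 ≤ ((mat 12).2.1 + (mat 12).2.2.2) * 10000 ^ 16384 := by
  decide +kernel

lemma num_up : ((mat 12).2.1 + (mat 12).2.2.2) * 9 * 10000 ^ 16384 ≤ 11525 ^ 16384 := by
  decide +kernel

lemma abs_le_log3 {x : ℝ} {n : ℕ} (h1 : (Y n : ℝ) ≤ 3 * x) (h2 : x ≤ 3 * Y n) :
    |Real.log x - l n| ≤ Real.log 3 := by
  have hn := Y_one_le n
  have hx : 0 < x := by linarith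
  unfold l
  have h3 : Real.log (Y n) ≤ Real.log 3 + Real.log x := by
    rw [← Real.log_mul (by norm_num) hx.ne']
    exact Real.log_le_log (by linarith) h1
  have h4 : Real.log x ≤ Real.log 3 + Real.log (Y n) := by
    rw [← Real.log_mul (by norm_num) (by linarith)]
    exact Real.log_le_log hx h2
  rw [abs_le]
  constructor <;> linarith

lemma log_h (n : ℕ) (hn : 1 ≤ n) (r : ℕ) (hr : r < 4) :
    1 ≤ |(h (4 * n + r) : ℝ)| ∧ |Real.log |(h (4 * n + r) : ℝ)| - l n| ≤ Real.log 3 := by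
  obtain ⟨h0, h1, h2, h3⟩ := h_values n
  obtain ⟨p1, p2, p3, p4⟩ := XY_pos n
  have p4 := p4 hn
  have hX1 : 1 ≤ X n := by omega
  have hT : |(t n : ℝ)| = 1 := by
    rcases t_cases n with h | h <;> rw [h] <;> norm_num
  have q1 : (1 : ℝ) ≤ X n := by exact_mod_cast hX1
  have q2 : (1 : ℝ) ≤ Y n := by exact_mod_cast p2
  have q3 : (X n : ℝ) ≤ 2 * Y n := by exact_mod_cast p3
  have q4 : (Y n : ℝ) ≤ 3 * X n := by exact_mod_cast p4
  have q5 : (Y (n + 1) : ℝ) = X n + Y n := by rw [Y_succ]; push_cast; ring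
  have hr' : r = 0 ∨ r = 1 ∨ r = 2 ∨ r = 3 := by omega
  rcases hr' with rfl | rfl | rfl | rfl
  · have e : |(h (4 * n + 0) : ℝ)| = X n := by
      rw [Nat.add_zero, h0]; push_cast; rw [abs_neg, abs_of_nonneg (by linarith)]
    rw [e]
    exact ⟨q1, abs_le_log3 q4 (by linarith)⟩
  · have e : |(h (4 * n + 1) : ℝ)| = Y n := by
      rw [h1]; push_cast; rw [abs_mul, hT, one_mul, abs_of_nonneg (by linarith)]
    rw [e]
    exact ⟨q2, abs_le_log3 (by linarith) (by linarith)⟩
  · have e : |(h (4 * n + 2) : ℝ)| = X n + Y n := by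
      rw [h2]; push_cast; rw [abs_neg, q5, abs_of_nonneg (by linarith)]
    rw [e]
    exact ⟨by linarith, abs_le_log3 (by linarith) (by linarith)⟩
  · have e : |(h (4 * n + 3) : ℝ)| = X n := by
      rw [h3]; push_cast; rw [abs_neg, abs_mul, hT, one_mul, abs_of_nonneg (by linarith)]
    rw [e]
    exact ⟨q1, abs_le_log3 q4 (by linarith)⟩

lemma bounds_V {lam : ℝ} (hlam : ∀ k : ℕ, |l (2 ^ k) - lam * 2 ^ k| ≤ 2 * Real.log 3) (k V : ℕ)
    (hY : Y (2 ^ k) = (V : ℤ)) (M : ℕ) (hM : M = 4 * 2 ^ k) :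
    (V : ℝ) ≤ Real.exp (lam / 4) ^ M * 9 ∧ Real.exp (lam / 4) ^ M ≤ V * 9 := by
  have hnum := hlam k
  have hYR : (Y (2 ^ k) : ℝ) = (V : ℝ) := by rw [hY]; push_cast; ring
  have hV1 : (1 : ℝ) ≤ V := by rw [← hYR]; exact Y_one_le _
  have hg16 : Real.exp (lam / 4) ^ M = Real.exp (lam * 2 ^ k) := by
    rw [← Real.exp_nat_mul, hM]
    congr 1
    push_cast
    ring
  have hexp9 : Real.exp (2 * Real.log 3) = 9 := by
    rw [two_mul, Real.exp_add, Real.exp_log (by norm_num)]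
    norm_num
  have hexpV : Real.exp (l (2 ^ k)) = V := by
    unfold l
    rw [hYR, Real.exp_log (by linarith)]
  rw [abs_le] at hnum
  constructor
  · rw [hg16, ← hexpV, ← hexp9, ← Real.exp_add]
    exact Real.exp_le_exp.2 (by linarith)
  · rw [hg16, ← hexpV, ← hexp9, ← Real.exp_add]
    exact Real.exp_le_exp.2 (by linarith)

lemma low_of_nat {g : ℝ} {V M : ℕ} (h2 : (V : ℝ) ≤ g ^ M * 9) {p q : ℕ} (hM : M ≠ 0)
    (hq : 0 < q) (hg : 0 ≤ g) (h1 : p ^ M * 9 ≤ V * q ^ M) : (p : ℝ) / q ≤ g := by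
  have hq' : (0 : ℝ) < q := by exact_mod_cast hq
  have h1' : (p : ℝ) ^ M * 9 ≤ V * q ^ M := by exact_mod_cast h1
  have hp : (0 : ℝ) < (q : ℝ) ^ M := by positivity
  refine le_of_pow_le_pow_left₀ hM hg ?_
  rw [div_pow, div_le_iff₀ hp]
  nlinarith [mul_le_mul_of_nonneg_right h2 hp.le]

lemma up_of_nat {g : ℝ} {V M : ℕ} (h2 : g ^ M ≤ (V : ℝ) * 9) {p q : ℕ} (hM : M ≠ 0)
    (hq : 0 < q) (h1 : V * 9 * q ^ M ≤ p ^ M) : g ≤ (p : ℝ) / q := by
  have hq' : (0 : ℝ) < q := by exact_mod_cast hq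
  have h1' : (V : ℝ) * 9 * q ^ M ≤ (p : ℝ) ^ M := by exact_mod_cast h1
  have hp : (0 : ℝ) < (q : ℝ) ^ M := by positivity
  refine le_of_pow_le_pow_left₀ hM (by positivity) ?_
  rw [div_pow, le_div_iff₀ hp]
  nlinarith [mul_le_mul_of_nonneg_right h2 hp.le]

/-- The limit of `|h n| ^ (1 / n)` exists; it lies between `1.1521` and `1.1525`; and `|h n|` is
equal to the `n`-th power of the limit up to a factor which is polynomial in `n`. -/
theorem result : ∃ g C : ℝ, 1.1521 ≤ g ∧ g ≤ 1.1525 ∧ 0 < C ∧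
    Tendsto (fun n : ℕ => |(h n : ℝ)| ^ (1 / (n : ℝ))) atTop (𝓝 g) ∧
    ∀ n : ℕ, 5 ≤ n → g ^ n / (n : ℝ) ^ C ≤ |(h n : ℝ)| ∧ |(h n : ℝ)| ≤ g ^ n * (n : ℝ) ^ C := by
  obtain ⟨lam, hlam0, hlam⟩ := exists_lam
  have hL := log3_pos
  have hL2 : 0 < Real.log 2 := Real.log_pos (by norm_num)
  set C : ℝ := 4 * Real.log 3 + lam + 3 * Real.log 3 / Real.log 2 with hC
  have hCpos : 0 < C := by positivity
  -- the main estimate
  have main : ∀ N : ℕ, 4 ≤ N → 1 ≤ |(h N : ℝ)| ∧
      |Real.log |(h N : ℝ)| - lam / 4 * N| ≤ C * Real.log N := by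
    intro N hN
    obtain ⟨n, r, hr, rfl⟩ : ∃ n r, r < 4 ∧ N = 4 * n + r :=
      ⟨N / 4, N % 4, Nat.mod_lt _ (by norm_num), (Nat.div_add_mod N 4).symm⟩
    have hn : 1 ≤ n := by omega
    obtain ⟨h1, h2⟩ := log_h n hn r hr
    refine ⟨h1, ?_⟩
    have h3 := l_lt hlam (Nat.log 2 n + 1) n (Nat.lt_pow_succ_log_self (by norm_num) n)
    have h4 : ((Nat.log 2 n : ℕ) : ℝ) ≤ Real.log n / Real.log 2 := by
      have := Real.natLog_le_logb n 2
      rwa [Real.logb] at this
    have hnR : (1 : ℝ) ≤ n := by exact_mod_cast hn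
    have hNR : (n : ℝ) ≤ ((4 * n + r : ℕ) : ℝ) := by exact_mod_cast (by omega : n ≤ 4 * n + r)
    have h5 : Real.log n ≤ Real.log ((4 * n + r : ℕ) : ℝ) := Real.log_le_log (by linarith) hNR
    have h6 : 1 ≤ Real.log ((4 * n + r : ℕ) : ℝ) := by
      rw [Real.le_log_iff_exp_le (by positivity)]
      have : (4 : ℝ) ≤ ((4 * n + r : ℕ) : ℝ) := by exact_mod_cast hN
      linarith [Real.exp_one_lt_d9]
    have h7 : |lam * n - lam / 4 * ((4 * n + r : ℕ) : ℝ)| ≤ lam := by
      have e : lam * n - lam / 4 * ((4 * n + r : ℕ) : ℝ) = -(lam * (r / 4)) := by push_cast; ring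
      rw [e, abs_neg, abs_of_nonneg (by positivity)]
      have hr4 : (r : ℝ) / 4 ≤ 1 := by
        have : (r : ℝ) ≤ 4 := by exact_mod_cast hr.le
        linarith
      nlinarith
    set LN := Real.log ((4 * n + r : ℕ) : ℝ) with hLN
    have h8 : Real.log n / Real.log 2 ≤ LN / Real.log 2 :=
      div_le_div_of_nonneg_right h5 hL2.le
    have h9 : 3 * Real.log 3 * ((Nat.log 2 n + 1 : ℕ) : ℝ) ≤
        3 * Real.log 3 + 3 * Real.log 3 / Real.log 2 * LN := by
      push_cast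
      have : 3 * Real.log 3 / Real.log 2 * LN = 3 * Real.log 3 * (LN / Real.log 2) := by ring
      rw [this]
      nlinarith
    have h10 : (4 * Real.log 3 + lam) ≤ (4 * Real.log 3 + lam) * LN := by nlinarith
    have h11 : C * LN = (4 * Real.log 3 + lam) * LN + 3 * Real.log 3 / Real.log 2 * LN := by
      rw [hC]; ring
    have h3' := h3
    rw [abs_le] at h2 h3 h7 ⊢
    rw [h11]
    constructor <;> linarith [h2.1, h2.2, h3.1, h3.2, h7.1, h7.2]
  -- the numerical bounds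
  have hnum := bounds_V hlam 12 ((mat 12).2.1 + (mat 12).2.2.2) (Y_pow 12) 16384 (by norm_num)
  refine ⟨Real.exp (lam / 4), C, ?_, ?_, hCpos, ?_, ?_⟩
  · have h1 := low_of_nat hnum.1 (p := 11521) (q := 10000) (by norm_num) (by norm_num)
      (Real.exp_pos _).le num_low
    refine le_trans ?_ h1
    norm_num
  · have h1 := up_of_nat hnum.2 (p := 11525) (q := 10000) (by norm_num) (by norm_num) num_up
    refine le_trans h1 ?_
    norm_num
  · -- the limit
    have h1 : Tendsto (fun n : ℕ => Real.log |(h n : ℝ)| * (1 / (n : ℝ))) atTop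
        (𝓝 (lam / 4)) := by
      have h2 : Tendsto (fun n : ℕ => C * (Real.log n / n)) atTop (𝓝 0) := by
        have h3 : Tendsto (fun x : ℝ => Real.log x / x) atTop (𝓝 0) :=
          Real.isLittleO_log_id_atTop.tendsto_div_nhds_zero
        have h4 := (h3.comp tendsto_natCast_atTop_atTop).const_mul C
        simpa using h4
      rw [tendsto_iff_dist_tendsto_zero]
      refine squeeze_zero' (Eventually.of_forall fun n => dist_nonneg) ?_ h2
      filter_upwards [eventually_ge_atTop 4] with n hn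
      have hn0 : (0 : ℝ) < n := by exact_mod_cast (by omega : 0 < n)
      rw [Real.dist_eq]
      have e : Real.log |(h n : ℝ)| * (1 / (n : ℝ)) - lam / 4 =
          (Real.log |(h n : ℝ)| - lam / 4 * n) / n := by
        field_simp
      rw [e, abs_div, abs_of_pos hn0, ← mul_div_assoc]
      exact div_le_div_of_nonneg_right (main n hn).2 hn0.le
    have h5 := (Real.continuous_exp.tendsto (lam / 4)).comp h1
    refine h5.congr' ?_
    filter_upwards [eventually_ge_atTop 4] with n hn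
    have h6 := (main n hn).1
    rw [Real.rpow_def_of_pos (by linarith)]
    rfl
  · intro n hn
    obtain ⟨h1, h2⟩ := main n (by omega)
    have hn0 : (0 : ℝ) < n := by exact_mod_cast (by omega : 0 < n)
    rw [abs_le] at h2
    have e1 : |(h n : ℝ)| = Real.exp (Real.log |(h n : ℝ)|) := (Real.exp_log (by linarith)).symm
    have e2 : Real.exp (lam / 4) ^ n = Real.exp (lam / 4 * n) := by
      rw [← Real.exp_nat_mul]; ring_nf
    have e3 : (n : ℝ) ^ C = Real.exp (C * Real.log n) := by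
      rw [Real.rpow_def_of_pos hn0]; ring_nf
    rw [e2, e3, ← Real.exp_sub, ← Real.exp_add]
    constructor
    · rw [e1]; exact Real.exp_le_exp.2 (by linarith)
    · rw [e1]; exact Real.exp_le_exp.2 (by linarith)

end Pool.Agent.Results.MP_7d59ed_nt.GrowthRate
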